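import Pool.Agent.W425.SV.Defs
import Pool.Agent.W425.SG.Kill

set_option autoImplicit false

namespace Pool.Agent.W425.SV

open MvPolynomial Pool.Agent.H628R4.TZ Pool.Agent.H628R4.TP Pool.Agent.W425.SM Pool.Agent.W425.SL
  Pool.Agent.W425.SG MeasureTheory Set Filter Topology

variable {r N : ℕ}

lemma sum_dY (v : Fin r → Fin N → ℕ) (θ : Fin r → ℝ) (T δ ϑ : ℝ) (d : Fin r → ℝ)
    (x : Fin (N+1) → ℝ) :
    ∑ j, d j * Y (av v) (yTH v θ T δ ϑ) x j =
      ∑ i : Fin N, (∑ j, d j * v j i) * x i.succ - (∑ j, d j) * (x 0 + T) -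
      δ * ∑ i : Fin N, (∑ j, d j * v j i) - ϑ * ∑ j, d j * θ j := by
  have : ∀ j, d j * Y (av v) (yTH v θ T δ ϑ) x j =
      ∑ i, d j * v j i * x i.succ - d j * (x 0 + T) -
      δ * ∑ i, d j * v j i - ϑ * (d j * θ j) := by
    intro j
    rw [Y_av', yTH, ← Finset.mul_sum]
    simp only [mul_assoc]
    rw [← Finset.mul_sum]
    ring
  simp only [this]
  rw [Finset.sum_sub_distrib, Finset.sum_sub_distrib, Finset.sum_sub_distrib, ← Finset.sum_mul,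
    ← Finset.mul_sum, ← Finset.mul_sum, Finset.sum_comm, Finset.sum_comm (s := Finset.univ (α := Fin r))
      (f := fun j i => d j * (v j i : ℝ))]
  congr 3
  exact Finset.sum_congr rfl fun i _ => by rw [Finset.sum_mul]

/-- setup of the proofs of the vanishing lemmas -/
lemma HH_zero_of' (v : Fin r → Fin N → ℕ) (θ : Fin r → ℝ) (ε : ℝ) (hε : 0 < ε) (κ : Fin r → ℕ)
    (M : ℕ) (hκ : ∀ j, κ j ≤ M) (s T δ ϑ : ℝ) (c : Fin r → ℤ) (l : Fin r → ℝ) (hl : ∀ j, 0 ≤ l j)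
    (S : Finset (Fin N)) (q : MvPolynomial (Fin r) ℂ)
    (h : ∀ x : Fin (N+1) → ℝ, (∀ i, 0 ≤ x i) → (∀ i ∈ S, x i.succ = 0) →
      ∑ i : Fin N, (∑ j, ((c j : ℝ) + l j) * v j i) * x i.succ -
      (∑ j, ((c j : ℝ) + l j)) * (x 0 + T) -
      δ * ∑ i : Fin N, (∑ j, ((c j : ℝ) + l j) * v j i) - ϑ * ∑ j, ((c j : ℝ) + l j) * θ j <
        -(ε * ∑ j, |(c j : ℝ)|)) :
    HH v ε κ s (yTH v θ T δ ϑ) S (q * ∏ j, (if c j < 0 then X j * dm M j else 1)) = 0 := by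
  classical
  unfold HH
  refine integral_eq_zero_of_ae ?_
  filter_upwards [ae_ms (S.map (Fin.succEmb N))] with x hx
  obtain ⟨hx0, hxS⟩ := hx
  by_contra hne
  have hne' : DD (pk ε κ) (Y (av v) (yTH v θ T δ ϑ) x)
      (q * ∏ j, (if c j < 0 then X j * dm M j else 1)) ≠ 0 := by
    intro h
    apply hne
    simp only [Pi.zero_apply]
    rw [h, mul_zero]
  obtain ⟨h1, h3⟩ := nonvan ε hε κ M hκ c _ q hne'
  have h4 := h x (fun i => hx0 i) (fun i hi => hxS i.succ (by simp [hi]))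
  rw [← sum_dY] at h4
  have h5 : ∑ j, (c j : ℝ) * Y (av v) (yTH v θ T δ ϑ) x j ≤
      ∑ j, ((c j : ℝ) + l j) * Y (av v) (yTH v θ T δ ϑ) x j := by
    refine Finset.sum_le_sum fun j _ => ?_
    nlinarith [mul_nonneg (hl j) (h1 j)]
  linarith

lemma vanish1 (v : Fin r → Fin N → ℕ) (θ : Fin r → ℝ) (ε : ℝ) (hε : 0 < ε) (κ : Fin r → ℕ)
    (M : ℕ) (hκ : ∀ j, κ j ≤ M) (s T δ ϑ : ℝ) (hϑ : 0 < ϑ) (c : Fin r → ℤ) (l : Fin r → ℝ)
    (hl : ∀ j, 0 ≤ l j) (B : Finset (Fin N)) (hc : ∑ j, ((c j : ℝ) + l j) = 1)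
    (hB : ∀ i, i ∉ B → ∑ j, ((c j : ℝ) + l j) * (v j i : ℝ) ≤ 0)
    (hT : (ε + |δ| + ϑ) * (∑ j, |(c j : ℝ)| + ∑ i, |∑ j, ((c j : ℝ) + l j) * (v j i : ℝ)| +
      |∑ j, ((c j : ℝ) + l j) * θ j|) < T)
    (S : Finset (Fin N)) (q : MvPolynomial (Fin r) ℂ) (hS : B ⊆ S) :
    HH v ε κ s (yTH v θ T δ ϑ) S (q * ∏ j, (if c j < 0 then X j * dm M j else 1)) = 0 := by
  refine HH_zero_of' v θ ε hε κ M hκ s T δ ϑ c l hl S q fun x hx0 hxS => ?_
  rw [hc, one_mul]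
  have h5 : ∑ i : Fin N, (∑ j, ((c j : ℝ) + l j) * v j i) * x i.succ ≤ 0 := by
    refine Finset.sum_nonpos fun i _ => ?_
    by_cases hi : i ∈ B
    · rw [hxS i (hS hi), mul_zero]
    · exact mul_nonpos_of_nonpos_of_nonneg (hB i hi) (hx0 _)
  have h6 := hx0 0
  have h7 : -(δ * ∑ i : Fin N, (∑ j, ((c j : ℝ) + l j) * v j i)) ≤
      |δ| * ∑ i, |∑ j, ((c j : ℝ) + l j) * (v j i : ℝ)| := by
    refine (neg_le_abs _).trans ?_
    rw [abs_mul]
    exact mul_le_mul_of_nonneg_left (Finset.abs_sum_le_sum_abs _ _) (abs_nonneg _)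
  have h7' : -(ϑ * ∑ j, ((c j : ℝ) + l j) * θ j) ≤ ϑ * |∑ j, ((c j : ℝ) + l j) * θ j| := by
    refine (neg_le_abs _).trans ?_
    rw [abs_mul, abs_of_pos hϑ]
  have h8 : 0 ≤ ε * ∑ i, |∑ j, ((c j : ℝ) + l j) * (v j i : ℝ)| := by positivity
  have h9 : 0 ≤ |δ| * ∑ j, |(c j : ℝ)| := by positivity
  have h10 : 0 ≤ ε * |∑ j, ((c j : ℝ) + l j) * θ j| := by positivity
  have h11 : 0 ≤ |δ| * |∑ j, ((c j : ℝ) + l j) * θ j| := by positivity
  have h12 : 0 ≤ ϑ * ∑ j, |(c j : ℝ)| := by positivity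
  have h13 : 0 ≤ ϑ * ∑ i, |∑ j, ((c j : ℝ) + l j) * (v j i : ℝ)| := by positivity
  nlinarith

lemma vanisha (v : Fin r → Fin N → ℕ) (θ : Fin r → ℝ) (ε : ℝ) (hε : 0 < ε) (κ : Fin r → ℕ)
    (M : ℕ) (hκ : ∀ j, κ j ≤ M) (s T δ ϑ : ℝ) (hϑ : 0 < ϑ) (c : Fin r → ℤ) (l : Fin r → ℝ)
    (hl : ∀ j, 0 ≤ l j) (hc : ∑ j, ((c j : ℝ) + l j) = 0)
    (hc1 : ∀ i, ∑ j, ((c j : ℝ) + l j) * (v j i : ℝ) ≤ 0)
    (hT : (ε + ϑ) * (∑ j, |(c j : ℝ)| + |∑ j, ((c j : ℝ) + l j) * θ j|) <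
      (-δ) * (-∑ i : Fin N, (∑ j, ((c j : ℝ) + l j) * v j i)))
    (S : Finset (Fin N)) (q : MvPolynomial (Fin r) ℂ) :
    HH v ε κ s (yTH v θ T δ ϑ) S (q * ∏ j, (if c j < 0 then X j * dm M j else 1)) = 0 := by
  refine HH_zero_of' v θ ε hε κ M hκ s T δ ϑ c l hl S q fun x hx0 hxS => ?_
  rw [hc, zero_mul, sub_zero]
  have h5 : ∑ i : Fin N, (∑ j, ((c j : ℝ) + l j) * v j i) * x i.succ ≤ 0 := by
    refine Finset.sum_nonpos fun i _ => ?_
    exact mul_nonpos_of_nonpos_of_nonneg (hc1 i) (hx0 _)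
  have h7' : -(ϑ * ∑ j, ((c j : ℝ) + l j) * θ j) ≤ ϑ * |∑ j, ((c j : ℝ) + l j) * θ j| := by
    refine (neg_le_abs _).trans ?_
    rw [abs_mul, abs_of_pos hϑ]
  have h10 : 0 ≤ ε * |∑ j, ((c j : ℝ) + l j) * θ j| := by positivity
  have h12 : 0 ≤ ϑ * ∑ j, |(c j : ℝ)| := by positivity
  nlinarith

/-- the three alternatives, with constants -/
lemma kil0_const (v : Fin r → Fin N → ℕ) (θ : Fin r → ℝ) (loc : Prop) (c : Fin r → ℤ)
    (h : Kil0 v θ loc c) : ∃ K : ℝ, 0 ≤ K ∧ ∀ (ε : ℝ), 0 < ε → ∀ (κ : Fin r → ℕ) (M : ℕ),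
      (∀ j, κ j ≤ M) → ∀ (s T δ ϑ : ℝ), 0 < ϑ → ε * K < ϑ → (loc → (ε + ϑ) * K < -δ) →
      ∀ (S : Finset (Fin N)) (q : MvPolynomial (Fin r) ℂ),
      HH v ε κ s (yTH v θ T δ ϑ) S (q * ∏ j, (if c j < 0 then X j * dm M j else 1)) = 0 := by
  rcases h with ⟨h1, h2, h3⟩ | ⟨hloc, l, hl, h1, h2, h3⟩
  · refine ⟨(∑ j, (c j : ℝ) * θ j)⁻¹ * ∑ j, |(c j : ℝ)|, by positivity,
      fun ε hε κ M hκ s T δ ϑ hϑ hεϑ _ S q => ?_⟩
    refine killedb v θ ε hε κ M hκ s T δ ϑ hϑ c h1 h2 ?_ S q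
    have h9 := mul_lt_mul_of_pos_left hεϑ h3
    have h10 : (∑ j, (c j : ℝ) * θ j) * (ε * ((∑ j, (c j : ℝ) * θ j)⁻¹ *
        ∑ j, |(c j : ℝ)|)) = ε * ∑ j, |(c j : ℝ)| := by
      have := h3.ne'
      field_simp
    rw [h10] at h9
    linarith
  · set m : ℝ := -∑ i : Fin N, (∑ j, ((c j : ℝ) + l j) * v j i) with hm
    have hmpos : 0 < m := by
      rw [hm, neg_pos]
      obtain ⟨i, hi⟩ := h3
      exact Finset.sum_neg' (fun i _ => h2 i) ⟨i, Finset.mem_univ i, hi⟩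
    refine ⟨m⁻¹ * (∑ j, |(c j : ℝ)| + |∑ j, ((c j : ℝ) + l j) * θ j|), by positivity,
      fun ε hε κ M hκ s T δ ϑ hϑ _ hδ S q => ?_⟩
    refine vanisha v θ ε hε κ M hκ s T δ ϑ hϑ c l hl h1 h2 ?_ S q
    have h9 := mul_lt_mul_of_pos_right (hδ hloc) hmpos
    have h10 : (ε + ϑ) * (m⁻¹ * (∑ j, |(c j : ℝ)| + |∑ j, ((c j : ℝ) + l j) * θ j|)) * m =
        (ε + ϑ) * (∑ j, |(c j : ℝ)| + |∑ j, ((c j : ℝ) + l j) * θ j|) := by
      have := hmpos.ne'
      field_simp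
    rw [h10] at h9
    exact h9

/-- **The functional kills `k * p(∑ X_j)`, version with `h`.** -/
theorem killsV (v : Fin r → Fin N → ℕ) (θ : Fin r → ℝ) (loc : Prop) (p : Polynomial ℂ)
    (hR : RelV v θ loc p)
    (k : MvPolynomial (Fin r) ℂ)
    (hk : ∀ (κ : Fin r → ℕ) (i : Fin N), ∑ j, κ j * v j i = 1 →
      k ∈ Ideal.span {p : MvPolynomial (Fin r) ℂ | ∃ j, 0 < v j i ∧ p = X j + C ((κ j : ℕ) : ℂ)}) :
    ∃ K0 s0 : ℝ, 0 ≤ K0 ∧ 0 < s0 ∧ ∀ ε > 0, ∀ ϑ > 0, ε * K0 < ϑ →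
      ∀ δ : ℝ, (loc → (ε + ϑ) * K0 < -δ) → ∀ T : ℝ,
      (ε + |δ| + ϑ) * K0 < T → ∀ s : ℝ, s0 ≤ s →
      Φ (ph ε) ∅ (lm (N := N) s) (av v) (yTH v θ T δ ϑ)
        (k * Polynomial.aeval (∑ j, X j : MvPolynomial (Fin r) ℂ) p) = 0 := by
  classical
  obtain ⟨M, n, n0, c, B, q, c0, q0, hc, hc0, hrel⟩ := hR
  obtain ⟨cf, hcf⟩ := DD_sum (r := r) M
  choose l hl hl1 hl2 using hc
  choose K0 hK0 hkill0 using fun k => kil0_const v θ loc (c0 k) (hc0 k)
  set KK := Fintype.piFinset (fun _ : Fin r => Finset.range (M+1)) with hKK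
  set K1 : ℝ := ∑ k, (∑ j, |(c k j : ℝ)| + ∑ i, |∑ j, ((c k j : ℝ) + l k j) * (v j i : ℝ)| +
      |∑ j, ((c k j : ℝ) + l k j) * θ j|) with hK1
  set K2 : ℝ := ∑ k, K0 k with hK2
  have hK1' : 0 ≤ K1 := by positivity
  have hK2' : 0 ≤ K2 := Finset.sum_nonneg fun k _ => hK0 k
  refine ⟨K1 + K2, (∑ κ ∈ KK, (Lam v κ : ℝ)) + 1, by positivity, by positivity,
    fun ε hε ϑ hϑ hεϑ δ hδ T hT s hs => ?_⟩
  have hT1 : (ε + |δ| + ϑ) * K1 < T := by
    refine lt_of_le_of_lt (mul_le_mul_of_nonneg_left ?_ (by positivity)) hT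
    linarith
  have hδ1 : loc → (ε + ϑ) * K2 < -δ := by
    intro hl
    refine lt_of_le_of_lt (mul_le_mul_of_nonneg_left ?_ (by positivity)) (hδ hl)
    linarith
  have hεϑ1 : ε * K2 < ϑ := by
    refine lt_of_le_of_lt (mul_le_mul_of_nonneg_left ?_ hε.le) hεϑ
    linarith
  have hzero : ∀ κ ∈ KK, HH v ε κ s (yTH v θ T δ ϑ) ∅
      ((k * Polynomial.aeval (∑ j, X j : MvPolynomial (Fin r) ℂ) p) * ∏ j, dm M j) = 0 ∧
      Gd v ε κ ∅ ((k * Polynomial.aeval (∑ j, X j : MvPolynomial (Fin r) ℂ) p) * ∏ j, dm M j) ∧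
      (Lam v κ : ℝ) + 1 ≤ s := by
    intro κ hκ
    have hκM : ∀ j, κ j ≤ M := fun j => by
      have := (Fintype.mem_piFinset.1 hκ) j
      rw [Finset.mem_range] at this
      omega
    have hs' : (Lam v κ : ℝ) + 1 ≤ s := by
      refine le_trans ?_ hs
      have := Finset.single_le_sum (f := fun κ : Fin r → ℕ => (Lam v κ : ℝ))
        (fun _ _ => Nat.cast_nonneg _) hκ
      linarith
    have hGd : Gd v ε κ ∅
        ((k * Polynomial.aeval (∑ j, X j : MvPolynomial (Fin r) ℂ) p) * ∏ j, dm M j) := by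
      intro i _ hi
      have h1 : ∃ j, 0 < κ j * v j i := by
        by_contra hcon
        push Not at hcon
        have : ell v κ i = 0 := Finset.sum_eq_zero fun j _ => Nat.le_zero.1 (hcon j)
        omega
      obtain ⟨j, hj⟩ := h1
      have hj1 : 0 < κ j := Nat.pos_of_mul_pos_right hj
      have hj2 : 0 < v j i := Nat.pos_of_mul_pos_left hj
      refine (goodDir_lin hε (κ := κ) j hj2).of_dvd ?_
      refine Dvd.dvd.mul_left ?_ _
      exact (dm_dvd M j (κ j) hj1 (hκM j)).trans (Finset.dvd_prod_of_mem _ (Finset.mem_univ j))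
    refine ⟨?_, hGd, hs'⟩
    set L : List (Fin N) := (Finset.univ.filter fun i => 2 ≤ ell v κ i).toList with hL
    have hLnd : L.Nodup := Finset.nodup_toList _
    have hLell : ∀ i ∈ L, ell v κ i ≠ 1 := fun i hi => by
      have : 2 ≤ ell v κ i := by simpa [hL] using hi
      omega
    have hkgood : ∀ i, i ∉ L → 0 < ell v κ i → GoodDir v ε κ i k := by
      intro i hi h
      have h1 : ell v κ i = 1 := by
        have : ¬ 2 ≤ ell v κ i := fun h' => hi (by simp [hL, h'])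
        omega
      have h2 := hk κ i h1
      rw [← Submodule.mem_toAddSubmonoid, ] at h2
      refine Submodule.span_induction (p := fun x _ => GoodDir v ε κ i x) ?_ ?_ ?_ ?_
        (by simpa [Ideal.span] using h2)
      · rintro x ⟨j, hj, rfl⟩
        exact goodDir_lin hε j hj
      · exact GoodDir.zero
      · intro x y _ _ hx hy
        exact hx.add hy
      · intro a x _ hx
        exact hx.mul_left a
    rw [← FF_eq v ε hε κ s hs' _ L ∅ _ (by simp) hLnd hLell hGd]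
    set F : (Fin n) ⊕ (Fin n0) → MvPolynomial (Fin r) ℂ := Sum.elim
      (fun k' => (∏ i ∈ B k', el v i) *
          ((k * q k') * ∏ j, (if c k' j < 0 then X j * dm M j else 1)))
      (fun k' => (k * q0 k') * ∏ j, (if c0 k' j < 0 then X j * dm M j else 1)) with hF
    have h3 : (k * Polynomial.aeval (∑ j, X j : MvPolynomial (Fin r) ℂ) p) * ∏ j, dm M j =
        ∑ x : (Fin n) ⊕ (Fin n0), F x := by
      rw [mul_assoc, hrel, Fintype.sum_sum_type, mul_add, Finset.mul_sum, Finset.mul_sum]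
      congr 1
      · exact Finset.sum_congr rfl fun c _ => by rw [hF, Sum.elim_inl]; ring
      · exact Finset.sum_congr rfl fun c _ => by rw [hF, Sum.elim_inr]; ring
    rw [h3, FF_sum v ε hε κ s hs', Fintype.sum_sum_type]
    · rw [Finset.sum_eq_zero, Finset.sum_eq_zero, add_zero]
      · intro k' _
        rw [hF, Sum.elim_inr]
        rw [mul_assoc]
        rw [mul_comm (q0 k'), ← mul_assoc, mul_comm _ (q0 k')]
        have h4 := FF_kill v ε κ s (yTH v θ T δ ϑ)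
          (∏ j, (if c0 k' j < 0 then X j * dm M j else 1)) ∅
          (fun S q' _ => by
            have h7 := Finset.single_le_sum (f := fun k => K0 k) (fun k _ => hK0 k)
              (Finset.mem_univ k')
            refine hkill0 k' ε hε κ M hκM s T δ ϑ hϑ ?_ ?_ S q'
            · exact lt_of_le_of_lt (mul_le_mul_of_nonneg_left h7 hε.le) hεϑ1
            · intro hl
              exact lt_of_le_of_lt (mul_le_mul_of_nonneg_left h7 (by positivity)) (hδ1 hl))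
          L ∅ (q0 k' * k) subset_rfl
        rwa [mul_assoc] at h4
      · intro k' _
        rw [hF, Sum.elim_inl]
        have hH : Hyp v ε κ L ∅ ((k * q k') * ∏ j, (if c k' j < 0 then X j * dm M j else 1)) :=
          fun i _ h1 h2 => ((hkgood i h1 h2).mul_right _).mul_right _
        obtain ⟨L', hL'⟩ := FF_steps v ε hε κ s hs' (yTH v θ T δ ϑ) (B k') L ∅ _
          (Finset.disjoint_empty_right _) hLnd hLell hH
        rw [hL', Finset.union_empty]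
        refine FF_kill v ε κ s _ _ (B k') (fun S q' hS => ?_) L' _ _ subset_rfl
        refine vanish1 v θ ε hε κ M hκM s T δ ϑ hϑ (c k') (l k') (hl k') (B k') (hl1 k') (hl2 k')
          (lt_of_le_of_lt ?_ hT1) S q' hS
        refine mul_le_mul_of_nonneg_left ?_ (by positivity)
        exact Finset.single_le_sum (f := fun k =>
          (∑ j, |(c k j : ℝ)| + ∑ i, |∑ j, ((c k j : ℝ) + l k j) * (v j i : ℝ)| +
            |∑ j, ((c k j : ℝ) + l k j) * θ j|))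
          (fun c _ => by positivity) (Finset.mem_univ k')
    · rintro (k' | k') _ i _ h1 h2
      · exact (((hkgood i h1 h2).mul_right _).mul_right _).mul_left _
      · exact ((hkgood i h1 h2).mul_right _).mul_right _
  have hfin : Φ (ph ε) ∅ (lm (N := N) s) (av v) (yTH v θ T δ ϑ)
        (k * Polynomial.aeval (∑ j, X j : MvPolynomial (Fin r) ℂ) p) =
      ∑ κ ∈ KK, (∏ j, cf (κ j)) * HH v ε κ s (yTH v θ T δ ϑ) ∅
        ((k * Polynomial.aeval (∑ j, X j : MvPolynomial (Fin r) ℂ) p) * ∏ j, dm M j) := by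
    unfold Φ HH
    simp only [← integral_const_mul]
    rw [Finset.map_empty, ← integral_finsetSum]
    · refine integral_congr_ae (Eventually.of_forall fun x => ?_)
      simp only
      rw [← hcf ε hε, Finset.mul_sum]
      exact Finset.sum_congr rfl fun κ _ => by ring
    · intro κ hκ
      have := HH_integrable v ε hε κ s (hzero κ hκ).2.2 (yTH v θ T δ ϑ) ∅ _ (hzero κ hκ).2.1
      rw [Finset.map_empty] at this
      exact this.const_mul _
  rw [hfin]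
  exact Finset.sum_eq_zero fun κ hκ => by rw [(hzero κ hκ).1, mul_zero]

end Pool.Agent.W425.SV
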