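import Pool.Agent.W425.SV.Kill
import Pool.Agent.W425.SG.Main
import Pool.Agent.W333.SG.C1
import Pool.Agent.W327.SG.C2
import Pool.Agent.W349.SG.C3
import Pool.Agent.W54.SG.C4

set_option autoImplicit false

namespace Pool.Agent.W425.SV

open MvPolynomial Pool.Agent.H628R4.TZ Pool.Agent.H628R4.TP MeasureTheory Set Filter Topology
open Pool.Agent.W425.SG
open Pool.Agent.W425.SM hiding Φ_XJ Φ_kerP yz_tendsto bdry_lim ker_lim Zt

variable {r N : ℕ}

/-- **`p(s) Zt(s)` is a polynomial.** -/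
theorem pZtV (v : Fin r → Fin N → ℕ) (θ : Fin r → ℝ) (loc : Prop) (R : SmoothFan N)
    (hv0 : ∀ j, v j ≠ 0) (hidx : idx v ∅ = 1) (hidx1 : ∀ J, J.card = 1 → idx v J = 1)
    (α : ℝ) (hα : loc → α < 0) (p : Polynomial ℂ) (hR : RelV v θ loc p)
    (hk : ∀ (κ : Fin r → ℕ) (i : Fin N), ∑ j, κ j * v j i = 1 →
      kerP v ∈ Ideal.span {p : MvPolynomial (Fin r) ℂ | ∃ j, 0 < v j i ∧ p = X j + C ((κ j : ℕ) : ℂ)})
    (hC : ∀ K : ℝ, 0 < K → ∀ s : ℝ, 0 < s → ∀ J : Finset (Fin r), J.Nonempty → idx v J ≠ 0 →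
      Tendsto (fun m : ℕ => ∫ x, integH v θ K α s J m x
        ∂(Measure.pi (ms (∅ : Finset (Fin (N+1)))))) atTop (𝓝 (limJH v R θ α s J))) :
    ∃ (Q : Polynomial ℂ) (s0 : ℝ), 0 < s0 ∧ ∀ s : ℝ, s0 ≤ s →
      p.eval (s : ℂ) * Zt v R θ α s = Q.eval (s : ℂ) := by
  obtain ⟨K0, s0, hK0, hs0, hkill⟩ := killsV v θ loc p hR (kerP v) hk
  set K : ℝ := (2 + |α|) * K0 + 1 with hK
  have hKpos : 0 < K := by positivity
  have hev : ∀ᶠ m in atTop, dl m ^ 2 * K0 < 1 ∧ (loc → (dl m ^ 3 + dl m) * K0 < -α) := by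
    have h1 : Tendsto (fun m => dl m ^ 2 * K0) atTop (𝓝 (0 ^ 2 * K0)) :=
      (dl_tendsto.pow 2).mul_const K0
    have h2 : Tendsto (fun m => (dl m ^ 3 + dl m) * K0) atTop (𝓝 ((0 ^ 3 + 0) * K0)) :=
      ((dl_tendsto.pow 3).add dl_tendsto).mul_const K0
    have h3 : (0:ℝ) ^ 2 * K0 = 0 := by ring
    have h4 : ((0:ℝ) ^ 3 + 0) * K0 = 0 := by ring
    rw [h3] at h1
    rw [h4] at h2
    have h5 := h1.eventually (gt_mem_nhds one_pos)
    by_cases hl : loc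
    · filter_upwards [h5, h2.eventually (gt_mem_nhds (show (0:ℝ) < -α by linarith [hα hl]))]
        with m hm hm'
      exact ⟨hm, fun _ => hm'⟩
    · filter_upwards [h5] with m hm
      exact ⟨hm, fun h => absurd h hl⟩
  obtain ⟨Q, hQ⟩ := limit_poly'
    (fun m => PeK v (yzH v θ K α m) (dl m ^ 4) (kerP v) p) p.natDegree
    (fun m => PeK_natDegree _ _ _ _ _) (fun s => p.eval (s : ℂ) * Zt v R θ α s) s0 (by
      intro s hs
      have hs' : 0 < s := hs0.trans_le hs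
      have h1 := (ker_lim v θ R hv0 hidx K α s hs' hidx1
        (fun J hJ hJ' => hC K hKpos s hs' J hJ hJ')).const_mul (p.eval (s : ℂ))
      refine h1.congr' ?_
      filter_upwards [hev] with m hm
      refine PeK_eval v _ _ _ p s (pow_pos (dl_pos m) 4) hs' ?_
      rw [yzH_eq]
      have hd := dl_pos m
      have hd1 := dl_le m
      have hd2 : 0 < dl m ^ 2 := pow_pos hd 2
      have hd2' : dl m ^ 2 ≤ dl m := by nlinarith
      have hd4' : dl m ^ 4 ≤ dl m := by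
        have : dl m ^ 4 = dl m ^ 2 * dl m ^ 2 := by ring
        rw [this]
        nlinarith
      refine hkill _ (pow_pos hd 4) _ hd2 ?_ _ ?_ _ ?_ s hs
      · have h5 : dl m ^ 4 * K0 = dl m ^ 2 * (dl m ^ 2 * K0) := by ring
        rw [h5]
        nlinarith [hm.1]
      · intro hl
        have h5 : (dl m ^ 4 + dl m ^ 2) * K0 = dl m * ((dl m ^ 3 + dl m) * K0) := by ring
        rw [h5]
        nlinarith [hm.2 hl]
      · rw [abs_mul, abs_of_pos hd, hK]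
        have h3 : (dl m ^ 4 + |α| * dl m + dl m ^ 2) * K0 ≤ (dl m + |α| * dl m + dl m) * K0 :=
          mul_le_mul_of_nonneg_right (by linarith) hK0
        nlinarith)
  exact ⟨Q, s0, hs0, fun s hs => hQ s hs⟩



open Polynomial in
/-- The theorem, from the relation with heights and the parts. -/
theorem mainV_rel [NeZero r]
    (v : Fin r → Fin N → ℕ) (hv : Function.Injective v) (hv0 : ∀ j, v j ≠ 0)
    (θ : Fin r → ℝ) (hθ : LinearIndependent ℚ θ) (loc : Prop) (R : SmoothFan N)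
    (hR : Principal v R) (α : ℝ) (hα0 : α ≠ 0) (hα : loc → α < 0) (p : ℂ[X])
    (hp : RelV v θ loc p) :
    ∃ P : ℂ[X], algebraMap ℂ[X] (RatFunc ℂ) ((Polynomial.X + 1) * p) * topG v θ R α =
      algebraMap ℂ[X] (RatFunc ℂ) P := by
  have h1 : ∀ J, J.card = 1 → idx v J = 1 := fun J hJ => (Pool.Agent.W54.SG.taskC4 v J).2.1 hJ
  refine main_of v θ hv hv0 R hR h1 α p ?_
  refine pZtV v θ loc R hv0 ((Pool.Agent.W54.SG.taskC4 v ∅).2.2 rfl) h1 α hα p hp
    (fun κ i h => Pool.Agent.W655.SM.taskK v κ i h) ?_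
  intro K hK s hs J hJ hne
  have hI := (Pool.Agent.W54.SG.taskC4 v J).1.1 hne
  obtain ⟨d, Θ, κ, hA, hL⟩ := Pool.Agent.W333.SG.taskC1 v R J hI hJ
  rw [← Pool.Agent.W349.SG.taskC3 v R hR θ α s hα0 hs J hI hJ d Θ κ hA hL hne]
  exact Pool.Agent.W327.SG.taskC2 v θ hθ K α s hK hα0 hs J hI hJ d Θ κ hA

end Pool.Agent.W425.SV
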