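import Pool.Agent.W425.SV.Final0
import Pool.Agent.W74.SV.V1
import Pool.Agent.W368.SV.V2

set_option autoImplicit false

namespace Pool.Agent.W425.SV

open MvPolynomial Pool.Agent.H628R4.TZ Pool.Agent.W425.SM Pool.Agent.W425.SG

variable {r N : ℕ}

/-- `w` lies in the convex hull of the `v_j`. -/
def Hull {r N : ℕ} (v : Fin r → Fin N → ℕ) (w : Fin N →₀ ℕ) : Prop :=
  ∃ l : Fin r → ℝ, (∀ j, 0 ≤ l j) ∧ ∑ j, l j = 1 ∧ ∀ i, ∑ j, l j * (v j i : ℝ) = (w i : ℝ)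

open Polynomial in
/-- The global theorem. -/
theorem finalGlobal {F : Type} [Field F] [Algebra F ℂ]
    (hr : 1 ≤ r) (v : Fin r → Fin N → ℕ) (a : Fin r → ℂ)
    (hv : Function.Injective v) (hv0 : ∀ j, v j ≠ 0) (ha : AlgebraicIndependent F a)
    (h : MvPolynomial (Fin N) F) (hh : ∀ w ∈ h.support, Hull v w)
    (θ : Fin r → ℝ) (hθ : LinearIndependent ℚ θ) (R : SmoothFan N) (hR : Principal v R)
    (b : F[X]) (hb : Pool.Agent.H628R4.TP.IsBFunction
      (sparse v a + map (algebraMap F ℂ) h) (b.map (algebraMap F ℂ))) :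
    ∃ P : ℂ[X], algebraMap ℂ[X] (RatFunc ℂ) (b.map (algebraMap F ℂ)) * topZetaGen v θ R =
      algebraMap ℂ[X] (RatFunc ℂ) P :=
  finalGlobal_of Pool.Agent.W74.SV.taskV1 Pool.Agent.W368.SV.taskV2 hr v a hv hv0 ha h
    (fun w hw => by
      obtain ⟨l, h1, h2, h3⟩ := hh w hw
      exact ⟨l, h1, h2, fun i => (h3 i).le⟩) θ hθ R hR b hb

open Polynomial in
/-- The local theorem. -/
theorem finalLocal {F : Type} [Field F] [Algebra F ℂ]
    (hr : 1 ≤ r) (v : Fin r → Fin N → ℕ) (a : Fin r → ℂ)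
    (hv : Function.Injective v) (hv0 : ∀ j, v j ≠ 0) (ha : AlgebraicIndependent F a)
    (h : MvPolynomial (Fin N) F) (hh : ∀ w ∈ h.support, NP v w)
    (θ : Fin r → ℝ) (hθ : LinearIndependent ℚ θ) (R : SmoothFan N) (hR : Principal v R)
    (b : F[X]) (hb : Pool.Agent.H628R4.TP.IsLocalBFunction
      (sparse v a + map (algebraMap F ℂ) h) (b.map (algebraMap F ℂ))) :
    ∃ P : ℂ[X], algebraMap ℂ[X] (RatFunc ℂ) (b.map (algebraMap F ℂ)) * topZetaGenLocal v θ R =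
      algebraMap ℂ[X] (RatFunc ℂ) P :=
  finalLocal_of Pool.Agent.W74.SV.taskV1 Pool.Agent.W368.SV.taskV2 hr v a hv hv0 ha h hh
    θ hθ R hR b hb

end Pool.Agent.W425.SV
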