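import Pool.Agent.W425.SG.Defs

set_option autoImplicit false

/-! Polynomials `∑_j a_j x ^ (v j) + h` with very general coefficients `a_j` over the field of
definition `F` of `h`, the exponents of `h` being in the Newton polyhedron of the `v j`:
definitions and statements of the parts. -/

namespace Pool.Agent.W425.SV

open MvPolynomial Pool.Agent.H628R4.TZ Pool.Agent.H628R4.TP Pool.Agent.W425.SM Pool.Agent.W425.SL
  Pool.Agent.W425.SG

/-- `w` lies in the Newton polyhedron (convex hull plus positive orthant) of the `v_j`. -/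
def NP {r N : ℕ} (v : Fin r → Fin N → ℕ) (w : Fin N →₀ ℕ) : Prop :=
  ∃ l : Fin r → ℝ, (∀ j, 0 ≤ l j) ∧ ∑ j, l j = 1 ∧ ∀ i, ∑ j, l j * (v j i : ℝ) ≤ (w i : ℝ)

/-- the condition which makes the terms of weight one vanish -/
def Kil1 {r N : ℕ} (v : Fin r → Fin N → ℕ) (c : Fin r → ℤ) (B : Finset (Fin N)) : Prop :=
  ∃ l : Fin r → ℝ, (∀ j, 0 ≤ l j) ∧ ∑ j, ((c j : ℝ) + l j) = 1 ∧
    ∀ i, i ∉ B → ∑ j, ((c j : ℝ) + l j) * (v j i : ℝ) ≤ 0

/-- the condition which makes the terms of weight zero vanish -/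
def Kil0 {r N : ℕ} (v : Fin r → Fin N → ℕ) (θ : Fin r → ℝ) (loc : Prop) (c : Fin r → ℤ) : Prop :=
  (∑ j, c j = 0 ∧ (∀ i, ∑ j, c j * (v j i : ℤ) = 0) ∧ 0 < ∑ j, (c j : ℝ) * θ j) ∨
    (loc ∧ ∃ l : Fin r → ℝ, (∀ j, 0 ≤ l j) ∧ ∑ j, ((c j : ℝ) + l j) = 0 ∧
      (∀ i, ∑ j, ((c j : ℝ) + l j) * (v j i : ℝ) ≤ 0) ∧
      ∃ i, ∑ j, ((c j : ℝ) + l j) * (v j i : ℝ) < 0)

/-- The algebraic relation. -/
def RelV {r N : ℕ} (v : Fin r → Fin N → ℕ) (θ : Fin r → ℝ) (loc : Prop) (p : Polynomial ℂ) :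
    Prop :=
  ∃ (M n n0 : ℕ) (c : Fin n → Fin r → ℤ) (B : Fin n → Finset (Fin N))
    (q : Fin n → MvPolynomial (Fin r) ℂ) (c0 : Fin n0 → Fin r → ℤ)
    (q0 : Fin n0 → MvPolynomial (Fin r) ℂ),
    (∀ k, Kil1 v (c k) (B k)) ∧ (∀ k, Kil0 v θ loc (c0 k)) ∧
    Polynomial.aeval (∑ j, X j : MvPolynomial (Fin r) ℂ) p * ∏ j, dm M j =
      ∑ k, (∏ i ∈ B k, el v i) * ((∏ j, if c k j < 0 then X j * dm M j else 1) * q k) +
      ∑ k, (∏ j, if c0 k j < 0 then X j * dm M j else 1) * q0 k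

/-- The generic polynomial `∑_j y_j x ^ (v j) + h` with coefficients in `F[y]`. -/
noncomputable def genH {r N : ℕ} {F : Type} [Field F] (v : Fin r → Fin N → ℕ)
    (h : MvPolynomial (Fin N) F) : MvPolynomial (Fin N) (MvPolynomial (Fin r) F) :=
  ∑ j, C (X j) * ∏ i, X i ^ v j i + map C h

/-- The functional equation over `F[y]`, coefficient by coefficient. -/
def GenEqH {r N : ℕ} {F : Type} [Field F] (loc : Prop) (v : Fin r → Fin N → ℕ)
    (h : MvPolynomial (Fin N) F) (b : Polynomial F) : Prop :=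
  ∃ (A : MvPolynomial (Fin N) (MvPolynomial (Fin r) F)) (D : Finset (Fin N → ℤ)) (T : Finset ℕ)
    (Q : ℕ → (Fin N → ℤ) → MvPolynomial (Fin N) (MvPolynomial (Fin r) F)),
    coeff 0 A ≠ 0 ∧ (¬ loc → ∀ γ, γ ≠ 0 → coeff γ A = 0) ∧
    ∀ (s : ℕ) (e : Fin N →₀ ℕ),
      C (b.eval (s : F)) * coeff e (A * genH v h ^ s) =
        ∑ m ∈ T, C ((s : F) ^ m) * ∑ δ ∈ D, if ∀ i, 0 ≤ (e i : ℤ) + δ i then
          eval (fun i => C ((((e i : ℤ) + δ i : ℤ)) : F)) (Q m δ) *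
          C (∏ i, ((((e i : ℤ) + δ i).toNat.descFactorial (δ i).toNat : ℕ) : F)) *
          coeff (Finsupp.equivFunOnFinite.symm fun i => ((e i : ℤ) + δ i).toNat)
            (genH v h ^ (s + 1)) else 0

/-- Part V1: descent from `ℂ` to `F[y]`. -/
def TaskV1 : Prop := ∀ {r N : ℕ} {F : Type} [Field F] [Algebra F ℂ] (loc : Prop)
  (v : Fin r → Fin N → ℕ) (h : MvPolynomial (Fin N) F) (a : Fin r → ℂ) (b : Polynomial F),
  AlgebraicIndependent F a →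
  UnitEq loc (sparse v a + map (algebraMap F ℂ) h) (b.map (algebraMap F ℂ)) → GenEqH loc v h b

/-- Part V2: comparison of the coefficients of `x ^ (∑ u_j v_j) y ^ (u + μ)`. -/
def TaskV2 : Prop := ∀ {r N : ℕ} {F : Type} [Field F] [Algebra F ℂ] (loc : Prop)
  (v : Fin r → Fin N → ℕ) (h : MvPolynomial (Fin N) F) (p : Polynomial F)
  (θ : Fin r → ℝ), LinearIndependent ℚ θ → (∀ w ∈ h.support, NP v w) →
  GenEqH loc v h ((Polynomial.X + 1) * p) → RelV v θ loc (p.map (algebraMap F ℂ))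

end Pool.Agent.W425.SV
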