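import Pool.Agent.W425.SV.Main
import Pool.Agent.W425.SG.Final

set_option autoImplicit false

namespace Pool.Agent.W425.SV

open MvPolynomial Pool.Agent.H628R4.TZ Pool.Agent.W425.SM Pool.Agent.W425.SG

variable {r N : ℕ}

lemma f_ne_zero {F : Type} [Field F] [Algebra F ℂ] [NeZero r] {v : Fin r → Fin N → ℕ}
    (hv : Function.Injective v) (a : Fin r → ℂ) (ha : AlgebraicIndependent F a)
    (h : MvPolynomial (Fin N) F) : sparse v a + map (algebraMap F ℂ) h ≠ 0 := by
  intro h0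
  have h1 := sparse_coeff' hv a 0
  have h2 := congrArg (coeff (Finsupp.equivFunOnFinite.symm (v 0))) h0
  rw [coeff_add, h1, coeff_map, coeff_zero] at h2
  set x : F := coeff (Finsupp.equivFunOnFinite.symm (v 0)) h with hx
  have h3 : aeval a (X 0 + C x : MvPolynomial (Fin r) F) = 0 := by
    rw [map_add, aeval_X, aeval_C, h2]
  have h4 : (X 0 + C x : MvPolynomial (Fin r) F) = 0 := by
    apply ha
    rw [h3, map_zero]
  have h5 := congrArg (coeff (Finsupp.single 0 1)) h4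
  have h6 : ¬ (0 : Fin r →₀ ℕ) = Finsupp.single 0 1 := by
    intro h6
    have := DFunLike.congr_fun h6 0
    simp at this
  rw [coeff_add, coeff_X', if_pos rfl, coeff_C, if_neg h6, add_zero, coeff_zero] at h5
  exact one_ne_zero h5

lemma f_const {F : Type} [Field F] [Algebra F ℂ] {v : Fin r → Fin N → ℕ}
    (hv0 : ∀ j, v j ≠ 0) (a : Fin r → ℂ)
    (h : MvPolynomial (Fin N) F) (hh : ∀ w ∈ h.support, NP v w) :
    constantCoeff (sparse v a + map (algebraMap F ℂ) h) = 0 := by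
  rw [map_add, SL.sparse_const hv0 a, zero_add, constantCoeff_map]
  have h1 : constantCoeff h = 0 := by
    rw [constantCoeff_eq]
    by_contra hne
    obtain ⟨l, hl, hl1, hl2⟩ := hh 0 (mem_support_iff.2 hne)
    have h2 : ∀ j, l j = 0 := by
      intro j
      obtain ⟨i, hi⟩ := Function.ne_iff.1 (hv0 j)
      have h3 := hl2 i
      have h4 : l j * (v j i : ℝ) ≤ ∑ j, l j * (v j i : ℝ) :=
        Finset.single_le_sum (f := fun j => l j * (v j i : ℝ))
          (fun j _ => mul_nonneg (hl j) (Nat.cast_nonneg _)) (Finset.mem_univ j)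
      have h5 : (1:ℝ) ≤ (v j i : ℝ) := by
        exact_mod_cast Nat.one_le_iff_ne_zero.2 hi
      simp only [Finsupp.coe_zero, Pi.zero_apply, Nat.cast_zero] at h3
      nlinarith [hl j]
    simp [h2] at hl1
  rw [h1, map_zero]

open Polynomial in
lemma dvd_ofF {F : Type} [Field F] [Algebra F ℂ] {b : F[X]}
    (h : (b.map (algebraMap F ℂ)).eval (-1) = 0) :
    ∃ p : F[X], b = (Polynomial.X + 1) * p := by
  have h1 : b.eval (-1) = 0 := by
    have h3 : (b.map (algebraMap F ℂ)).eval ((algebraMap F ℂ) (-1)) = 0 := by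
      rw [← h, map_neg, map_one]
    rw [Polynomial.eval_map_apply] at h3
    exact (map_eq_zero (algebraMap F ℂ)).1 h3
  obtain ⟨p, hp⟩ := Polynomial.dvd_iff_isRoot.2 (show b.IsRoot (-1) from h1)
  refine ⟨p, ?_⟩
  rw [hp]
  congr 1
  simp

open Polynomial in
theorem final_of (hV1 : TaskV1) (hV2 : TaskV2) {F : Type} [Field F] [Algebra F ℂ]
    [NeZero r] (loc : Prop) (v : Fin r → Fin N → ℕ) (a : Fin r → ℂ)
    (hv : Function.Injective v) (hv0 : ∀ j, v j ≠ 0) (ha : AlgebraicIndependent F a)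
    (h : MvPolynomial (Fin N) F) (hh : ∀ w ∈ h.support, NP v w)
    (θ : Fin r → ℝ) (hθ : LinearIndependent ℚ θ) (R : SmoothFan N) (hR : Principal v R)
    (α : ℝ) (hα0 : α ≠ 0) (hα : loc → α < 0)
    (b : F[X]) (h1 : (b.map (algebraMap F ℂ)).eval (-1) = 0)
    (h2 : UnitEq loc (sparse v a + map (algebraMap F ℂ) h) (b.map (algebraMap F ℂ))) :
    ∃ P : ℂ[X], algebraMap ℂ[X] (RatFunc ℂ) (b.map (algebraMap F ℂ)) * topG v θ R α =
      algebraMap ℂ[X] (RatFunc ℂ) P := by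
  obtain ⟨p, hp⟩ := dvd_ofF h1
  have h3 := hV1 loc v h a b ha h2
  rw [hp] at h3
  have h4 := hV2 loc v h p θ hθ hh h3
  have h5 := mainV_rel v hv hv0 θ hθ loc R hR α hα0 hα _ h4
  rw [hp]
  simpa [Polynomial.map_mul] using h5

open Polynomial in
/-- The global theorem. -/
theorem finalGlobal_of (hV1 : TaskV1) (hV2 : TaskV2) {F : Type} [Field F] [Algebra F ℂ]
    (hr : 1 ≤ r) (v : Fin r → Fin N → ℕ) (a : Fin r → ℂ)
    (hv : Function.Injective v) (hv0 : ∀ j, v j ≠ 0) (ha : AlgebraicIndependent F a)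
    (h : MvPolynomial (Fin N) F) (hh : ∀ w ∈ h.support, NP v w)
    (θ : Fin r → ℝ) (hθ : LinearIndependent ℚ θ) (R : SmoothFan N) (hR : Principal v R)
    (b : F[X]) (hb : Pool.Agent.H628R4.TP.IsBFunction
      (sparse v a + map (algebraMap F ℂ) h) (b.map (algebraMap F ℂ))) :
    ∃ P : ℂ[X], algebraMap ℂ[X] (RatFunc ℂ) (b.map (algebraMap F ℂ)) * topZetaGen v θ R =
      algebraMap ℂ[X] (RatFunc ℂ) P := by
  have : NeZero r := ⟨by omega⟩
  rw [← topG_one]
  refine final_of hV1 hV2 False v a hv hv0 ha h hh θ hθ R hR 1 one_ne_zero (fun h => h.elim) b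
    (Pool.Agent.W368.SL.taskL1 _ _ (f_ne_zero hv a ha h) (f_const hv0 a h hh) (isLocal hb)).1 ?_
  obtain ⟨P, hP⟩ := hb
  refine ⟨1, P, map_one _, fun _ => rfl, fun s => ?_⟩
  rw [mul_one]
  exact hP s

open Polynomial in
/-- The local theorem. -/
theorem finalLocal_of (hV1 : TaskV1) (hV2 : TaskV2) {F : Type} [Field F] [Algebra F ℂ]
    (hr : 1 ≤ r) (v : Fin r → Fin N → ℕ) (a : Fin r → ℂ)
    (hv : Function.Injective v) (hv0 : ∀ j, v j ≠ 0) (ha : AlgebraicIndependent F a)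
    (h : MvPolynomial (Fin N) F) (hh : ∀ w ∈ h.support, NP v w)
    (θ : Fin r → ℝ) (hθ : LinearIndependent ℚ θ) (R : SmoothFan N) (hR : Principal v R)
    (b : F[X]) (hb : Pool.Agent.H628R4.TP.IsLocalBFunction
      (sparse v a + map (algebraMap F ℂ) h) (b.map (algebraMap F ℂ))) :
    ∃ P : ℂ[X], algebraMap ℂ[X] (RatFunc ℂ) (b.map (algebraMap F ℂ)) * topZetaGenLocal v θ R =
      algebraMap ℂ[X] (RatFunc ℂ) P := by
  have : NeZero r := ⟨by omega⟩
  rw [← topG_neg]
  obtain ⟨h1, c, P, hc, hP⟩ := Pool.Agent.W368.SL.taskL1 _ _ (f_ne_zero hv a ha h)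
    (f_const hv0 a h hh) (SL.toSL hb)
  exact final_of hV1 hV2 True v a hv hv0 ha h hh θ hθ R hR (-1) (by norm_num)
    (fun _ => by norm_num) b h1 ⟨c, P, hc, fun h => absurd trivial h, hP⟩

end Pool.Agent.W425.SV
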